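import Pool.Agent.HofQ.Basic

set_option autoImplicit false

open Pool.Agent.HofQ

namespace Pool.Agent.Results.MP_c33876_nt.GapTwo

/-- If Hofstadter's Q-sequence is well defined, then its range has no multiplicative gap larger
than two: for every `x ≥ 1` some value lies in `(x, 2 x]`. -/
theorem result :
    ∀ f : ℕ → ℕ, f 1 = 1 → f 2 = 1 →
      (∀ n : ℕ, 3 ≤ n →
        f (n - 1) < n ∧ f (n - 2) < n ∧
        f n = f (n - f (n - 1)) + f (n - f (n - 2))) →
      ∀ x : ℕ, 1 ≤ x → ∃ n : ℕ, 1 ≤ n ∧ x < f n ∧ f n ≤ 2 * x := by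
  intro f h1 h2 h x hx
  have hs : Sol f := ⟨h1, h2, fun n hn => (h n hn).1, fun n hn => (h n hn).2.1,
    fun n hn => (h n hn).2.2⟩
  classical
  have hex := hs.unbounded x
  refine ⟨Nat.find hex, (Nat.find_spec hex).1, (Nat.find_spec hex).2, ?_⟩
  have hmin : ∀ m, m < Nat.find hex → 1 ≤ m → f m ≤ x := by
    intro m hm hm1
    by_contra hcon
    exact Nat.find_min hex hm ⟨hm1, by omega⟩
  have hsp := Nat.find_spec hex
  set n := Nat.find hex with hn
  have h3 : 3 ≤ n := by
    by_contra hcon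
    have : n = 1 ∨ n = 2 := by omega
    rcases this with h' | h'
    · rw [h', h1] at hsp
      omega
    · rw [h', h2] at hsp
      omega
  have hl1 := hs.lt1 n h3
  have hl2 := hs.lt2 n h3
  have hp1 := hs.pos (n - 1) (by omega)
  have hp2 := hs.pos (n - 2) (by omega)
  have ha := hmin (n - f (n - 1)) (by omega) (by omega)
  have hb := hmin (n - f (n - 2)) (by omega) (by omega)
  rw [hs.eqn n h3]
  omega

end Pool.Agent.Results.MP_c33876_nt.GapTwo
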