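import Pool.Agent.HofQ.Basic

set_option autoImplicit false

open Pool.Agent.HofQ

namespace Pool.Agent.Results.MP_c33876_nt.HalfGrowth

/-- If Hofstadter's Q-sequence is well defined, then `liminf f n / n ≤ 1/2 ≤ limsup f n / n`. -/
theorem result :
    ∀ f : ℕ → ℕ, f 1 = 1 → f 2 = 1 →
      (∀ n : ℕ, 3 ≤ n →
        f (n - 1) < n ∧ f (n - 2) < n ∧
        f n = f (n - f (n - 1)) + f (n - f (n - 2))) →
      (∀ c : ℝ, c < 1 / 2 → ∀ N : ℕ, ∃ n : ℕ, N ≤ n ∧ c * n < f n) ∧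
      (∀ c : ℝ, 1 / 2 < c → ∀ N : ℕ, ∃ n : ℕ, N ≤ n ∧ f n < c * n) := by
  intro f h1 h2 h
  have hs : Sol f := ⟨h1, h2, fun n hn => (h n hn).1, fun n hn => (h n hn).2.1,
    fun n hn => (h n hn).2.2⟩
  refine ⟨?_, ?_⟩
  · intro c hc N
    by_contra hcon
    push Not at hcon
    apply hs.limsup_aux (max c (1 / 4)) (lt_of_lt_of_le (by norm_num) (le_max_right _ _))
      (max_lt hc (by norm_num)) N
    intro n hn
    have h3 := hcon n hn
    have h4 : c * (n : ℝ) ≤ max c (1 / 4) * n :=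
      mul_le_mul_of_nonneg_right (le_max_left _ _) (Nat.cast_nonneg n)
    linarith
  · intro c hc N
    by_contra hcon
    push Not at hcon
    exact hs.liminf_aux c hc N hcon

end Pool.Agent.Results.MP_c33876_nt.HalfGrowth
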