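import Pool.Agent.H30HQ.Lower

/-!
# Hofstadter's Q-sequence: growth from below
-/

set_option autoImplicit false

namespace Pool.Agent.Results.MP_c33876_nt.LowerGrowth

/-- Let Hofstadter's Q-sequence `f` be well defined. (1) Either `f n` tends to infinity, or for some
`K` there are infinitely many `n` such that `f n` and `f (n - 3)` are at most `K` while `f (n - 1)`
and `f (n - 2)` are at least `n - K`. (2) If `0 < ε < 1` and `f n ≤ (1 - ε) n` for all `n ≥ N`, then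
`f n ≥ (n / (N + 2)) ^ δ` for all `n ≥ 1`, where `δ = log 2 / log (1 / ε)`. -/
theorem result :
    ∀ f : ℕ → ℕ, f 1 = 1 → f 2 = 1 →
      (∀ n : ℕ, 3 ≤ n →
        f (n - 1) < n ∧ f (n - 2) < n ∧
        f n = f (n - f (n - 1)) + f (n - f (n - 2))) →
      (Filter.Tendsto f Filter.atTop Filter.atTop ∨
        ∃ K : ℕ, ∀ N : ℕ, ∃ n : ℕ, N ≤ n ∧ 3 ≤ n ∧ f n ≤ K ∧ n ≤ f (n - 1) + K ∧
          n ≤ f (n - 2) + K ∧ f (n - 3) ≤ K) ∧
      (∀ (ε : ℝ) (N : ℕ), 0 < ε → ε < 1 → (∀ n : ℕ, N ≤ n → (f n : ℝ) ≤ (1 - ε) * n) →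
        ∀ n : ℕ, 1 ≤ n → ((n : ℝ) / (N + 2)) ^ (Real.log 2 / Real.log (1 / ε)) ≤ f n) := by
  intro f h1 h2 h
  have hs : Pool.Agent.HofQ.Sol f := ⟨h1, h2, fun n hn => (h n hn).1, fun n hn => (h n hn).2.1,
    fun n hn => (h n hn).2.2⟩
  refine ⟨(Pool.Agent.H30HQ.dichotomy hs).imp id ?_, fun ε N h0 h1 hN =>
    Pool.Agent.H30HQ.lower hs h0 h1 hN⟩
  rintro ⟨K, hK⟩
  refine ⟨K, fun N => ?_⟩
  obtain ⟨n, a1, a2, a3, a4, a5⟩ := hK (N + 3)
  exact ⟨n, by omega, by omega, a2, a3, a4, a5⟩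

end Pool.Agent.Results.MP_c33876_nt.LowerGrowth
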