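import Pool.Agent.H30HQ.Small10

/-!
# Hofstadter's Q-sequence: is seven a value?
-/

set_option autoImplicit false

namespace Pool.Agent.Results.MP_c33876_nt.SevenMissing

/-- Let Hofstadter's Q-sequence `f` be well defined. (1) If `f m < m` for all `m ≥ 34`, or if 8 is not
a value at any `x ≥ 25`, or if neither 9 nor 10 is, then seven is not a value of `f` (and `f n ≥ 8`
for `n ≥ 12`). (2) More precisely, if `f n ≤ 7` for some `n ≥ 12`, then there are `m ≥ 34`, `P ≥ 25`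
and `25 ≤ Y < Z < m` with `f m = m`, `f (m + 1) = m - 9`, `f (m + 2) = 7`, `9 ≤ f (m - 1) ≤ 11`,
`f (m - 3) ≥ m - 6`, `f (m - 2) = m - 1 - P`, `8 ≤ f P ≤ 10`, `f (P + 1) ≥ 16`, `f Z = 8`,
`f Y = 9` or `f Y = 10`, and `f j ≥ 8` for `12 ≤ j < m + 2`. (3) `f n ≥ 6` for all `n ≥ 9`. -/
theorem result :
    ∀ f : ℕ → ℕ, f 1 = 1 → f 2 = 1 →
      (∀ n : ℕ, 3 ≤ n →
        f (n - 1) < n ∧ f (n - 2) < n ∧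
        f n = f (n - f (n - 1)) + f (n - f (n - 2))) →
      (((∀ m : ℕ, 34 ≤ m → f m < m) ∨ (∀ x : ℕ, 25 ≤ x → f x ≠ 8) ∨
          (∀ x : ℕ, 25 ≤ x → f x ≠ 9 ∧ f x ≠ 10)) →
        (∀ x : ℕ, 1 ≤ x → f x ≠ 7) ∧ (∀ n : ℕ, 12 ≤ n → 8 ≤ f n)) ∧
      ((∃ n : ℕ, 12 ≤ n ∧ f n ≤ 7) →
        ∃ m P Y Z : ℕ, 34 ≤ m ∧ 25 ≤ P ∧ 25 ≤ Y ∧ Y < Z ∧ Z < m ∧
          f m = m ∧ f (m + 1) + 9 = m ∧ f (m + 2) = 7 ∧ 9 ≤ f (m - 1) ∧ f (m - 1) ≤ 11 ∧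
          m ≤ f (m - 3) + 6 ∧ f (m - 2) + P + 1 = m ∧ 8 ≤ f P ∧ f P ≤ 10 ∧ 16 ≤ f (P + 1) ∧
          f Z = 8 ∧ (f Y = 9 ∨ f Y = 10) ∧ ∀ j : ℕ, 12 ≤ j → j < m + 2 → 8 ≤ f j) ∧
      (∀ n : ℕ, 9 ≤ n → 6 ≤ f n) := by
  intro f h1 h2 h
  have hs : Pool.Agent.HofQ.Sol f := ⟨h1, h2, fun n hn => (h n hn).1, fun n hn => (h n hn).2.1,
    fun n hn => (h n hn).2.2⟩
  have main : (∃ n : ℕ, 12 ≤ n ∧ f n ≤ 7) →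
        ∃ m P Y Z : ℕ, 34 ≤ m ∧ 25 ≤ P ∧ 25 ≤ Y ∧ Y < Z ∧ Z < m ∧
          f m = m ∧ f (m + 1) + 9 = m ∧ f (m + 2) = 7 ∧ 9 ≤ f (m - 1) ∧ f (m - 1) ≤ 11 ∧
          m ≤ f (m - 3) + 6 ∧ f (m - 2) + P + 1 = m ∧ 8 ≤ f P ∧ f P ≤ 10 ∧ 16 ≤ f (P + 1) ∧
          f Z = 8 ∧ (f Y = 9 ∨ f Y = 10) ∧ ∀ j : ℕ, 12 ≤ j → j < m + 2 → 8 ≤ f j := by
    intro hex
    obtain ⟨m, a1, a2, a3, a4, a5, a6, a7, ⟨P, p1, -, p2, p3, p4, p5⟩, ⟨Z, z1, z2, z3⟩, hm⟩ :=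
      Pool.Agent.H30HQ.seven8 hs hex
    obtain ⟨Y, y1, y2, y3⟩ :=
      Pool.Agent.H30HQ.nineTen hs (n := m + 2) hm z1 (by omega) (by omega)
    have hYZ : Y ≠ Z := by
      rintro rfl
      omega
    exact ⟨m, P, Y, Z, a1, p1, y1, by omega, z2, a2, a4, a3, a5, a6, a7, p5, p2, p3, p4, z3, y3, hm⟩
  have key : ((∀ m : ℕ, 34 ≤ m → f m < m) ∨ (∀ x : ℕ, 25 ≤ x → f x ≠ 8) ∨
      (∀ x : ℕ, 25 ≤ x → f x ≠ 9 ∧ f x ≠ 10)) → ∀ n : ℕ, 12 ≤ n → 8 ≤ f n := by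
    intro hm n hn
    by_contra hc
    obtain ⟨m, P, Y, Z, a, -, y, yz, -, b, -, -, -, -, -, -, -, -, -, z, y2, -⟩ :=
      main ⟨n, hn, by omega⟩
    rcases hm with hm | hm | hm
    · have := hm m a
      omega
    · exact hm Z (by omega) z
    · have := hm Y y
      omega
  refine ⟨fun hm => ⟨fun x hx hx7 => ?_, key hm⟩, main, Pool.Agent.H30HQ.five hs⟩
  rcases Nat.lt_or_ge x 12 with hx12 | hx12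
  · exact Pool.Agent.H30HQ.no7 hs hx (by omega) hx7
  · have := key hm x hx12
    omega

end Pool.Agent.Results.MP_c33876_nt.SevenMissing
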